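import Mathlib
import Pool.Agent.Lib.MP_f786e3_al.ManyBreaks

set_option autoImplicit false

namespace Pool.Agent.Lib.MP_f786e3_al.Old.NotRelativeT

open Pool.Agent.Lib.MP_f786e3_al

/-- The pair `(S, T)` does not have relative property (T). -/
theorem result : ¬ HasRelativePropertyT groupS (thompsonT.subgroupOf groupS) := by
  refine not_relT_of_breaks groupS groupS_le_pp _ fun N => ?_
  obtain ⟨w, hw, hN⟩ := exists_many_breaks N
  exact ⟨⟨w, Subgroup.subset_closure (Or.inl hw)⟩, hw, hN⟩

end Pool.Agent.Lib.MP_f786e3_al.Old.NotRelativeT
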